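import Pool.Agent.Q36.GP.Cp

/-!
# Fibrations whose fibres are dominated by products of arbitrary varieties

Let `f : X → Y` be a fibration, `k` the algebraic closure of the function field of `Y`, and `F` the
geometric generic fibre, a projective manifold over `k`. Viehweg's conjecture holds for `f` if `F` has
a good minimal model (Kawamata 1985), that is (Nakayama, Gongyo and Lehmann), if the Kodaira dimension
and the numerical Kodaira dimension of `F` are equal. The theorem shows this equality if `F` is
dominated by a product `Z` of varieties for which it is known, and the map satisfies some inequalities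
on the coordinates of the points of its fibres; no group is involved, and nothing is assumed about `F`.

Let `W 1, ..., W s` be projective manifolds over `k` of dimensions `d i`, each of them one of the
following:

* a manifold whose canonical map has an image of dimension at least `a i ≥ 0`; then let `c i = 0`, or
  more generally let the canonical forms separate `c i + 1` points and tangent vectors in an open set,
* a curve of gonality at least `c i + 2`, and `a i = 1`, or `a i = 0` if it is elliptic.

Let `Z` be a variety with a generically finite rational map to `W 1 × ... × W s`, and `Z ⇢ F` any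
dominant rational map of finite degree. For a general point `x` of `F` let `r_i` be the number of
different `i`-th coordinates of the points of `Z` over `x`, and for a set `Q` of indices let `r(Q)` be
the number of the points over `x` which have the same `j`-th coordinates as a given one of them for
all `j` outside `Q`. Assume that

* `2 r_i ≤ c i + 1` for all `i` in some set `B` (which may be empty), and
* for all `Q` disjoint from `B`: `r(Q) = 1`, or `2 r(Q) - 1 ≤ ∑ j ∈ Q, c j`.

(1) The canonical map of `F` has an image of dimension at least `∑ a i`.

(2) Let `Z` be the product of the `W i`. If `ν(W i) ≤ a i` for all `i` then `ν(F) ≤ ∑ a i`.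

In (2) `κ(F) = ν(F) = ∑ a i`, and this is already the dimension of the canonical image of `F`. The
varieties `W` with `ν(W) = a` include the abelian varieties and the manifolds with trivial canonical
bundle (`a = 0`), the varieties of general type with generically finite canonical map (`a = dim W`),
elliptic surfaces with `p_g ≥ 2`, and products of all these.
-/

set_option autoImplicit false
set_option linter.overlappingInstances false

open FF IntermediateField Pool.Agent.W619.PQ Pool.Agent.W619.TW

namespace Pool.Agent.Results.MP_5c318e_ag.DominatedFibres

/-- Every nonconstant function on the curve with function field `F` has degree at least `γ`. -/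
def GonalityGe (k F : Type) [Field k] [Field F] [Algebra k F] (γ : ℕ) : Prop :=
  ∀ b : F, Transcendental k b → γ ≤ Module.finrank k⟮b⟯ F

/-- The canonical map of the projective manifolds of dimension `n` with function field `K` has an
image of dimension at least `h`: there are `h + 1` canonical forms whose ratios to the first one are
algebraically independent. For `h = 0`: `p_g > 0`. -/
def CanonicalImageGe (k K : Type) [Field k] [Field K] [Algebra k K] (n h : ℕ) : Prop :=
  ∃ ω : Fin (h + 1) → (Fin n → Derivation k K K) → K,
    (∀ l, IsSec k K n (fun _ => False) {1} 1 0 (ω l)) ∧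
    ∃ D, (∀ l, ω l D ≠ 0) ∧ AlgebraicIndependent k (fun l : Fin h => ω l.succ D / ω 0 D)

/-- The coefficients of the canonical forms of the projective manifold of dimension `d` with function
field `K`, with respect to the rational vector fields `E`. -/
def canonicalForms (k : Type) {K : Type} [Field k] [Field K] [Algebra k K] (d : ℕ)
    (E : Fin d → Derivation k K K) : Set K :=
  {f | ∃ η : (Fin d → Derivation k K K) → K, IsPluriForm k K d 1 η ∧
    (∀ u : Place k K, IsDivisorial u d → RegularAt u d η) ∧ η E = f}

/-- The canonical forms of the manifold with function field `K` separate `m` points and tangent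
vectors in an open set: let `φ i` be different generic points, with coordinates in a field `Ω`, with
multiplicities `1` or `2` of sum at most `m`, and `θ i` tangent vectors at the points of multiplicity
`2`; then the values at the `φ i` are linearly independent of each other and of the derivatives in
the directions `θ i ≠ 0`. (For the coefficients with respect to a frame `E`; this does not depend on
the choice of the frame.) -/
def Separates (k K : Type) [Field k] [Field K] [Algebra k K] (d m : ℕ) : Prop :=
  ∀ (y : Fin d → K) (E : Fin d → Derivation k K K), IsTranscendenceBasis k y →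
    (∀ i j, E i (y j) = if i = j then 1 else 0) →
    ∀ (Ω : Type) [Field Ω] [Algebra k Ω] (ι : Type) [Fintype ι] (φ : ι → (K →ₐ[k] Ω)) (μ : ι → ℕ)
      (c : ι → Ω) (θ : ι → (K →ₗ[k] Ω)), Function.Injective φ → (∀ i, μ i = 1 ∨ μ i = 2) →
      ∑ i, μ i ≤ m → (∀ i, ∀ a b, θ i (a * b) = φ i a * θ i b + φ i b * θ i a) →
      (∀ i, μ i = 1 → θ i = 0) →
      (∀ f ∈ canonicalForms k d E, ∑ i, (c i * φ i f + θ i f) = 0) → ∀ i, c i = 0 ∧ θ i = 0

section

variable {k : Type} (L : Type) {M : Type} [Field k] [Field L] [Field M] [Algebra k L] [Algebra k M]
  [Algebra L M]

/-- The number of different coordinates in the factor with function field `U` on a general fibre of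
`Z ⇢ F`: the degree over `F` of the image of `Z` in the product of `F` and the factor. -/
noncomputable def coordinates (U : IntermediateField k M) : ℕ :=
  Module.finrank L (IntermediateField.adjoin L (U : Set M))

/-- The number of the points of a general fibre of `Z ⇢ F` with the same coordinates outside `Q` as a
given one: the degree of `Z` over its image in the product of `F` and the factors `j ∉ Q`. -/
noncomputable def agreeing {s : ℕ} (W : Fin s → IntermediateField k M) (Q : Finset (Fin s)) : ℕ :=
  Module.finrank (IntermediateField.adjoin L {z : M | ∃ j, j ∉ Q ∧ z ∈ W j}) M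

end

/-- **Fibres dominated by products.** Let `k` be an algebraically closed field of characteristic zero
(the algebraic closure of the function field of `Y`), and let `W i` (`i < s`) be the function fields of
projective manifolds of dimensions `d i` over `k`, each of them with a canonical image of dimension at
least `a i`, where `c i = 0` or the canonical forms separate `c i + 1` points and tangent vectors, or a
curve of gonality at least `c i + 2` and `a i = 1`, or elliptic and `a i = 0`. Let `M`, of transcendence
degree `∑ d i`, be algebraic over the compositum of the `W i` (the function field of `Z`), and `L` the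
function field of a projective manifold `F` over `k` with a dominant rational map of finite degree
from `Z` to `F`. Let `B` be a set of indices such that twice the number of the `i`-th coordinates on a
general fibre is at most `c i + 1` for `i ∈ B`, and assume that for every set `Q` of indices disjoint
from `B` the number `r(Q)` of the points of a general fibre with the same coordinates outside `Q` as a
given one satisfies `r(Q) = 1` or `2 r(Q) - 1 ≤ ∑ j ∈ Q, c j`.

(1) The dimension of the canonical image of `F` is at least `∑ a i`.

(2) If `Z` is the product of the `W i`, that is, `M` is generated by the `W i`, and `ν(W i) ≤ a i` for all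
`i`, then `ν(F) ≤ ∑ a i`. -/
theorem result {k L M : Type} [Field k] [CharZero k] [IsAlgClosed k] [Field L] [Field M]
    [Algebra k L] [Algebra k M] [Algebra L M] [IsScalarTower k L M] [FiniteDimensional L M]
    [Algebra.EssFiniteType k L]
    (s : ℕ) (d a c : Fin s → ℕ) (W : Fin s → IntermediateField k M)
    (hess : ∀ i, Algebra.EssFiniteType k (W i)) (hd : ∀ i, Algebra.trdeg k (W i) = d i)
    (hM : Algebra.trdeg k M = (∑ i, d i : ℕ)) (halg : Algebra.IsAlgebraic ↥(⨆ i, W i) M)
    (hW : ∀ i, (CanonicalImageGe k (W i) (d i) (a i) ∧
        (c i = 0 ∨ Separates k (W i) (d i) (c i + 1))) ∨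
      (IsFF k (W i) ∧ GonalityGe k (W i) (c i + 2) ∧
        ((IsElliptic (W i) ∧ a i = 0) ∨ (¬ IsElliptic (W i) ∧ a i = 1))))
    (B : Finset (Fin s)) (hB : ∀ i ∈ B, 2 * coordinates L (W i) ≤ c i + 1)
    (hQ : ∀ Q : Finset (Fin s), Disjoint Q B →
      agreeing L W Q = 1 ∨ 2 * agreeing L W Q ≤ 1 + ∑ j ∈ Q, c j) :
    CanonicalImageGe k L (∑ i, d i) (∑ i, a i) ∧
    (⨆ i, W i = ⊤ → (∀ i, NumLe k (W i) (d i) (fun _ => False) (a i)) →
      NumLe k L (∑ i, d i) (fun _ => False) (∑ i, a i)) := by
  classical
  have hd1 : ∀ i, IsFF k (W i) → d i = 1 := by
    intro i hi
    have h4 := IsFF.trdeg (k := k) (K := W i)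
    rw [hd i] at h4
    exact_mod_cast h4
  have hg : ∀ i, Q36.GV.CanSepJ k (W i) (d i) (c i + 1) ∧
      Q36.PT.ImageGe k (W i) (d i) (fun _ => False) 1 (a i) := by
    intro i
    rcases hW i with ⟨h1, h3⟩ | ⟨h1, h2, h3⟩
    · refine ⟨?_, h1⟩
      rcases h3 with h3 | h3
      · rw [h3]
        obtain ⟨ω, h4, D, h5, -⟩ := h1
        exact Q36.GV.sep_one ⟨ω 0, (Q36.GV.reg_of_sec (h4 0)).1, (Q36.GV.reg_of_sec (h4 0)).2, D, h5 0⟩
      · exact h3
    · have h4 := Q36.GP.gfac_curve (W i) (hd i) (c := c i) h2
      refine ⟨h4.sep, ?_⟩
      rcases h3 with ⟨h5, h6⟩ | ⟨h5, h6⟩
      · have h7 := h4.img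
        rw [if_pos h5] at h7
        rw [h6]
        exact h7
      · have h7 := h4.img
        rw [if_neg h5] at h7
        rw [h6]
        exact h7
  refine ⟨?_, fun hsup hb => Q36.GP.num_dom W hd hM hsup hb⟩
  refine Q36.GV.imageV (L := L) W hM halg hd (m := fun i => c i + 1)
    (fun i => Nat.le_add_left 1 _) (fun i => (hg i).1) (fun i => (hg i).2) B hB fun Q hQB => ?_
  have h3 : ∑ j ∈ Q, (c j + 1 - 1) = ∑ j ∈ Q, c j :=
    Finset.sum_congr rfl fun j _ => Nat.add_sub_cancel _ _
  rw [h3]
  exact hQ Q hQB

end Pool.Agent.Results.MP_5c318e_ag.DominatedFibres
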