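import Mathlib
import Pool.Agent.Q103.VR.Stm
import Pool.Agent.Q103.EC.Gen

/-!
# Viehweg's conjecture for fibres which carry a map with many preperiodic points

`F` is an integral complex projective variety (the general fibre of a fibration `X → Y`), given by its
function field `K`, of transcendence degree `w = dim F`;
`f = p / q` is a rational map of the projective line over `K` of degree `d` (a family of rational maps
over an open subset of `F`), and `prePer d p q` are its preperiodic points in `P^1(K)` (preperiodic
rational sections; they may collide, and `f` may degenerate).

`DefinedOver d p q L` (`Pool/Agent/Q103/VR/Def.lean`): `f` is conjugate over an algebraic closure of `K` to a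
map with coefficients algebraic over the field `L` between `ℂ` and `K`. `IsVariation ℂ d p q v`: `v` is the
least transcendence degree of such a field, the variation `Var(f)` of `f`, that is, the dimension of the
image of `F` in the moduli space `M_d` of rational maps.

`ModuliFibration d p q E` (`Pool/Agent/Q103/VR/Stm.lean`): `E` is the function field of a variety `Z` with a
dominant rational map `F ⇢ Z` with irreducible general fibres (`E` is algebraically closed in `K`), `f` is
defined over `E` up to conjugation, and even conjugate, by a Moebius map over `K`, to a map over `E`,
all the preperiodic points of `f` in `P^1(K)` come from points of `P^1(E)`, and `E` is algebraic over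
every field over which `f` is defined up to conjugation (`F ⇢ Z` is the Stein factorisation of the
moduli map `F ⇢ M_d`).

`GeneralType ℂ E v`: `Z` is of general type: for some `N > 0` there are `N`-canonical forms of the function
field, regular at all prime divisors of all models, with `v` algebraically independent ratios.

Theorem: if `f` has at least `B` preperiodic points in `P^1(K)`, `B` depending on `d` only, then `Z` is a
point or a variety of general type, of dimension `Var(f)`.
(If `Var(f) ≥ dim F - 3` then the fibres of `F ⇢ Z` have dimension at most three, and by well-known
results `F` is uniruled or has a good minimal model, so Viehweg's inequality holds for all fibrations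
with general fibre `F`.)

The last part of the theorem says that for all `d` and `B` there are such varieties of dimension `2 d - 2`
with maximal variation (`ManyPrep`).

Proof (projects GT of helper41 and EC of helper103). Determinants of preperiodic points and of their
derivatives give symmetric differentials on the base which vanish to a high order where `f` has bad
reduction.
-/

set_option autoImplicit false

namespace Pool.Agent.Results.MP_5c318e_ag.ManyPreperiodicFibres

open FF Polynomial
open Pool.Agent.W602.GT
open Pool.Agent.Q103.EC (ManyPrep prePer)
open Pool.Agent.Q103.VR (ModuliFibration IsVariation)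

/-- For every `d ≥ 2` there is `B` such that the base of the moduli fibration of every map of degree `d`
with at least `B` preperiodic points over the function field of a complex projective variety is a point
or a variety of general type, whose dimension is the variation of the map. -/
theorem result (d : ℕ) (hd : 2 ≤ d) :
    (∃ B : ℕ, ∀ (K : Type) [Field K] [Algebra ℂ K] (p q : K[X]), IsCoprime p q →
      max p.natDegree q.natDegree = d → (B : ℕ∞) ≤ (prePer d p q).encard →
      ∀ w : ℕ, Algebra.trdeg ℂ K = w →
      ∃ (E : IntermediateField ℂ K) (v : ℕ), ModuliFibration d p q E ∧ v ≤ w ∧
        Algebra.trdeg ℂ E = v ∧ IsVariation ℂ d p q v ∧ (1 ≤ v → GeneralType ℂ E v)) ∧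
    ∀ n : ℕ, 3 ≤ n → ∃ (K : Type) (_ : Field K) (_ : Algebra ℂ K) (p q : K[X]),
      ManyPrep ℂ d n p q ∧ Algebra.trdeg ℂ K = (2 * d - 2 : ℕ) ∧
      ∃ (M : ℕ) (x : Fin (M + 1) → K), x ≠ 0 ∧ coords ℂ x = ⊤ := by
  refine ⟨?_, fun n hn => Pool.Agent.Q103.EC.exists_variety d hd n hn⟩
  obtain ⟨B, hB⟩ := Pool.Agent.Q103.VR.fibration d hd
  refine ⟨B, fun K _ _ p q hco hmax hmany w hw => ?_⟩
  obtain ⟨E, v, hE, hv, htr, hvar, hgt, -⟩ := hB ℂ K p q hco hmax hmany w hw
  exact ⟨E, v, hE, hv, htr, hvar, hgt⟩

end Pool.Agent.Results.MP_5c318e_ag.ManyPreperiodicFibres
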